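import Pool.Agent.Lib.MP_78c6b1_al.Neg.Iface3
import Pool.Agent.Lib.MP_78c6b1_al.Neg.Laz

/-! A Witt type filtration of a group obtained from one of a Lie algebra. -/

set_option autoImplicit false
set_option linter.unusedSectionVars false

namespace Pool.Agent.P78

open scoped commutatorElement

/-- a series whose layers `1, …, R` are exactly of Witt type -/
structure GFil (p : ℕ) (G : Type) [Group G] (μ R : ℕ) where
  H : NSer G
  ε : ℕ → G → ZMod p
  e : ℕ → G
  gap : ∀ i, 1 ≤ i → ¬ inS μ i → H.F i = H.F (i + 1)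
  lev : ∀ i, 1 ≤ i → i ≤ R → IsLev H i (ε i)
  ker : ∀ i, 1 ≤ i → i ≤ R → ∀ a ∈ H.F i, ε i a = 0 → a ∈ H.F (i + 1)
  e_mem : ∀ i, i ≤ R → inS μ i → e i ∈ H.F i
  e_one : ∀ i, i ≤ R → inS μ i → ε i (e i) = 1
  br : ∀ i j, 1 ≤ i → 1 ≤ j → i + j ≤ R → ∀ a ∈ H.F i, ∀ b ∈ H.F j,
    ε (i + j) ⁅a, b⁆ = ((j : ZMod p) - i) * ε i a * ε j b

namespace Base

section lie

variable {K A : Type*} [Field K] [LieRing A] [LieAlgebra K A] {μ R : ℕ} (P : PureFil K A μ R)

/-- the filtration, constant from `R + 1` on -/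
def F' (i : ℕ) : Submodule K A := P.F (min i (R + 1))

lemma F'_eq {i : ℕ} (h : i ≤ R + 1) : F' P i = P.F i := by rw [F', min_eq_left h]

lemma F'_anti : Antitone (F' P) := fun _ _ h => P.anti (min_le_min_right _ h)

lemma F'_one (a : A) : a ∈ F' P 1 := by rw [F'_eq P (by omega), P.one]; trivial

lemma F'_lie {i j : ℕ} {a b : A} (ha : a ∈ F' P i) (hb : b ∈ F' P j) : ⁅a, b⁆ ∈ F' P (i + j) := by
  by_cases h : i + j ≤ R + 1
  · rw [F'_eq P (by omega)] at ha hb
    rw [F'_eq P h]
    exact P.lie i j h a ha b hb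
  · have h1 := P.lie (min i (R + 1)) (R + 1 - min i (R + 1)) (by omega) a ha b
      (P.anti (by omega) hb)
    exact P.anti (by omega) h1

lemma F'_lie' {i j k : ℕ} {a b : A} (ha : a ∈ F' P i) (hb : b ∈ F' P j) (h : k ≤ i + j) :
    ⁅a, b⁆ ∈ F' P k := F'_anti P h (F'_lie P ha hb)

lemma exists_coord (i : ℕ) : ∃ f : A →ₗ[K] K, (∀ a ∈ F' P (i + 1), f a = 0) ∧
    (i ≤ R → inS μ i → f (P.e i) = 1) ∧ (¬ inS μ i → f = 0) ∧
    (1 ≤ i → i ≤ R → ∀ a ∈ F' P i, a - f a • P.e i ∈ F' P (i + 1)) := by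
  by_cases h : i ≤ R ∧ inS μ i
  · obtain ⟨f, hf, hf'⟩ := Submodule.exists_dual_map_eq_bot_of_notMem (P.ne i h.1 h.2)
      inferInstance
    have h0 : ∀ a ∈ P.F (i + 1), f a = 0 := fun a ha => by
      have : f a ∈ (P.F (i + 1)).map f := ⟨a, ha, rfl⟩
      rwa [hf'] at this
    refine ⟨(f (P.e i))⁻¹ • f, fun a ha => ?_, fun _ _ => by simp [hf], fun h' => absurd h.2 h',
      fun _ _ a ha => ?_⟩
    · rw [F'_eq P (by omega)] at ha
      simp [h0 a ha]
    · rw [F'_eq P (by omega), P.span i h.1 h.2] at ha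
      rw [F'_eq P (by omega)]
      obtain ⟨x, hx, y, hy, rfl⟩ := Submodule.mem_sup.1 ha
      obtain ⟨t, rfl⟩ := Submodule.mem_span_singleton.1 hx
      have : ((f (P.e i))⁻¹ • f) (t • P.e i + y) = t := by
        simp only [LinearMap.smul_apply, map_add, map_smul, h0 y hy, smul_eq_mul]
        field_simp
        ring
      rw [this]
      simpa using hy
  · refine ⟨0, fun _ _ => rfl, fun h1 h2 => absurd ⟨h1, h2⟩ h, fun _ => rfl, fun h1 h2 a ha => ?_⟩
    have hS : ¬ inS μ i := fun h' => h ⟨h2, h'⟩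
    rw [F'_eq P (by omega), P.gap i h1 hS] at ha
    rw [F'_eq P (by omega)]
    simpa using ha

lemma e_mem {i : ℕ} (hi : i ≤ R) (hS : inS μ i) : P.e i ∈ F' P i := by
  rw [F'_eq P (by omega), P.span i hi hS]
  exact Submodule.mem_sup_left (Submodule.mem_span_singleton_self _)

end lie

variable {p : ℕ} [hp : Fact p.Prime] {G : Type} [Group G]

theorem gfil {A : Type*} [LieRing A] [LieAlgebra (ZMod p) A] {μ R : ℕ}
    (hμ : μ = 2 ∨ μ = 3 ∨ μ = 4) (P : PureFil (ZMod p) A μ R) (lam : G → A)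
    (hs : Function.Surjective lam) (βm βc : List Bool →₀ ℤ) (hβ : βc [] = 0)
    (hinv : ∀ g, lam g⁻¹ = -lam g) (hone : lam 1 = 0)
    (hmul : ∀ g h, lam (g * h) = lam g + lam h + evC βm (lam g) (lam h))
    (hcomm : ∀ g h, lam ⁅g, h⁆ = ⁅lam g, lam h⁆ + evC βc (lam g) (lam h)) :
    Nonempty (GFil p G μ R) := by
  have hid : ∀ i (x : A), ∀ v ∈ (F' P i).toAddSubgroup, ⁅v, x⁆ ∈ (F' P i).toAddSubgroup :=
    fun i x v hv => F'_lie' P hv (F'_one P x) (by omega)
  have hev : ∀ β i (x y : A), ⁅x, y⁆ ∈ F' P i → evC β x y ∈ F' P i := fun β i x y h =>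
    evC_mem β (F' P i).toAddSubgroup h (hid i x) (hid i y)
  let H : ℕ → Subgroup G := fun i =>
    { carrier := {g | lam g ∈ F' P i}
      mul_mem' := fun {g h} hg hh => by
        show lam (g * h) ∈ F' P i
        rw [hmul]
        exact add_mem (add_mem hg hh) (hev _ _ _ _ (hid i _ _ hg))
      one_mem' := by show lam 1 ∈ F' P i; rw [hone]; exact zero_mem _
      inv_mem' := fun {g} hg => by show lam g⁻¹ ∈ F' P i; rw [hinv]; exact neg_mem hg }
  have hH : ∀ i g, g ∈ H i ↔ lam g ∈ F' P i := fun _ _ => Iff.rfl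
  have hc : ∀ i j, ∀ a ∈ H i, ∀ b ∈ H j, ⁅a, b⁆ ∈ H (i + j) := fun i j a ha b hb => by
    rw [hH, hcomm]
    exact add_mem (F'_lie P ha hb) (hev _ _ _ _ (F'_lie P ha hb))
  let S : NSer G :=
    { F := H
      normal := fun i => ⟨fun g hg h => by
        have e : h * g * h⁻¹ = ⁅h, g⁆ * g := by simp [commutatorElement_def]
        rw [e]
        exact mul_mem (F'_anti P (by omega) (hc 1 i h (F'_one P _) g hg)) hg⟩
      anti := fun i j h g hg => F'_anti P h hg
      comm := fun i j => Subgroup.commutator_le.2 (hc i j)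
      one := eq_top_iff.2 fun g _ => F'_one P _ }
  choose f f0 f1 f2 f3 using exists_coord P
  choose e he using hs
  refine ⟨{ H := S
            ε := fun i g => f i (lam g)
            e := fun i => e (P.e i)
            gap := fun i h1 h2 => ?_
            lev := fun i h1 h2 => ⟨fun a ha b hb => ?_, fun a ha => f0 i _ ha⟩
            ker := fun i h1 h2 a ha h0 => ?_
            e_mem := fun i h1 h2 => ?_
            e_one := fun i h1 h2 => ?_
            br := fun i j hi hj hij a ha b hb => ?_ }⟩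
  · ext g
    show lam g ∈ F' P i ↔ lam g ∈ F' P (i + 1)
    by_cases h : i ≤ R
    · rw [F'_eq P (by omega), F'_eq P (by omega), P.gap i h1 h2]
    · rw [F', F', min_eq_right (by omega), min_eq_right (by omega)]
  · show f i (lam (a * b)) = _
    rw [hmul, map_add, map_add, f0 i _ (hev _ _ _ _ (F'_lie' P ha hb (by omega))), add_zero]
  · have := f3 i h1 h2 _ ha
    rw [h0, zero_smul, sub_zero] at this
    exact this
  · show lam _ ∈ F' P i
    rw [he]
    exact e_mem P h1 h2
  · show f i (lam _) = 1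
    rw [he, f1 i h1 h2]
  · show f (i + j) (lam ⁅a, b⁆) = _ * f i (lam a) * f j (lam b)
    have ha' : lam a ∈ F' P i := ha
    have hb' : lam b ∈ F' P j := hb
    have h1 : evC βc (lam a) (lam b) ∈ F' P (i + j + 1) :=
      evC_mem₁ hβ (F' P (i + j)).toAddSubgroup (F' P (i + j + 1)).toAddSubgroup (F'_lie P ha' hb')
        (F'_anti P (Nat.le_succ _)) (fun v hv => F'_lie P hv (F'_one P _))
        (fun v hv => F'_lie P hv (F'_one P _))
    rw [hcomm, map_add, f0 _ _ h1, add_zero]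
    generalize lam a = x at *
    generalize lam b = y at *
    have hx := f3 i hi (by omega) x ha'
    have hy := f3 j hj (by omega) y hb'
    by_cases hSi : inS μ i
    swap
    · rw [f2 i hSi] at hx ⊢
      simp only [LinearMap.zero_apply, zero_smul, sub_zero, mul_zero, zero_mul] at hx ⊢
      exact f0 _ _ (F'_lie' P hx hb' (by omega))
    by_cases hSj : inS μ j
    swap
    · rw [f2 j hSj] at hy ⊢
      simp only [LinearMap.zero_apply, zero_smul, sub_zero, mul_zero] at hy ⊢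
      exact f0 _ _ (F'_lie' P ha' hy (by omega))
    have e1 : ⁅x, y⁆ = ⁅x - f i x • P.e i, y⁆ + f i x • ⁅P.e i, y - f j y • P.e j⁆ +
        (f i x * f j y) • (⁅P.e i, P.e j⁆ - ((j : ZMod p) - i) • P.e (i + j)) +
        (f i x * f j y * ((j : ZMod p) - i)) • P.e (i + j) := by
      simp only [sub_lie, lie_sub, smul_lie, lie_smul, smul_sub, mul_smul]
      abel
    have h2 : ⁅P.e i, P.e j⁆ - ((j : ZMod p) - i) • P.e (i + j) ∈ F' P (i + j + 1) := by
      rw [F'_eq P (by omega)]; exact P.br i j hSi hSj hij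
    rw [e1, map_add, map_add, map_add, map_smul, map_smul, map_smul,
      f0 _ _ (F'_lie' P hx hb' (by omega)),
      f0 _ _ (F'_lie' P (e_mem P (by omega) hSi) hy (by omega)), f0 _ _ h2]
    by_cases hS : inS μ (i + j)
    · rw [f1 _ hij hS]; simp only [smul_eq_mul]; ring
    · have : i = 1 ∧ j = 1 := by unfold inS at hS hSi hSj; omega
      obtain ⟨rfl, rfl⟩ := this
      simp

end Base

end Pool.Agent.P78
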