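import Pool.Agent.Lib.MP_78c6b1_al.Base.A
import Pool.Agent.Lib.MP_78c6b1_al.Neg.LazEx

/-! From the classification of Lie algebras to a Witt type filtration of the group. -/

set_option autoImplicit false
set_option linter.unusedSectionVars false

namespace Pool.Agent.P78

open scoped commutatorElement

namespace Base

lemma card_pre_add {A B : Type*} [AddCommGroup A] [AddCommGroup B] (f : A →+ B)
    (hf : Function.Surjective f) (t : Set B) :
    Nat.card (f ⁻¹' t) = Nat.card f.ker * Nat.card t :=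
  card_preimage_hom (H := Multiplicative A) (K := Multiplicative B)
    (AddMonoidHom.toMultiplicative f) hf t

lemma card_le_ker_mul {A : Type*} [AddCommGroup A] [Finite A] (f : A →+ A) (B : AddSubgroup A) :
    Nat.card B ≤ Nat.card f.ker * Nat.card (B.map f) := by
  have h := card_pre_add (f.addSubgroupMap B) (f.addSubgroupMap_surjective B) Set.univ
  simp only [Set.preimage_univ, Nat.card_univ] at h
  rw [h]
  refine Nat.mul_le_mul_right _ ?_
  exact Nat.card_le_card_of_injective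
    (fun x => (⟨x.1.1, congrArg Subtype.val x.2⟩ : f.ker))
    (fun x y h => Subtype.ext (Subtype.ext (congrArg (fun t : f.ker => t.1) h)))

/-- an additive subgroup closed under brackets as a Lie ideal over the integers -/
def toId {L : Type*} [LieRing L] (I : AddSubgroup L) (hI : ∀ a ∈ I, ∀ b, ⁅a, b⁆ ∈ I) :
    LieIdeal ℤ L where
  toSubmodule := AddSubgroup.toIntSubmodule I
  lie_mem := fun {x m} hm => by
    have : ⁅x, m⁆ ∈ I := by rw [← lie_skew]; exact neg_mem (hI m hm x)
    exact this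

lemma exists_red (p : ℕ) (L : Type) [LieRing L] :
    ∃ (A : Type) (_ : LieRing A) (_ : LieAlgebra (ZMod p) A) (q : L →+ A),
      Function.Surjective q ∧ (∀ x y, q ⁅x, y⁆ = ⁅q x, q y⁆) ∧
      q.ker = (nsmulAddMonoidHom p : L →+ L).range := by
  let I : LieIdeal ℤ L := toId (nsmulAddMonoidHom p : L →+ L).range (by
    rintro _ ⟨a, rfl⟩ b
    exact ⟨⁅a, b⁆, by simp⟩)
  let q : L →+ L ⧸ I := (LieSubmodule.Quotient.mk' I : L →ₗ[ℤ] L ⧸ I).toAddMonoidHom
  have hq : Function.Surjective q := fun x => Quotient.inductionOn' x fun a => ⟨a, rfl⟩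
  have hk : q.ker = (nsmulAddMonoidHom p : L →+ L).range := by
    ext x
    exact LieSubmodule.Quotient.mk_eq_zero (N := I)
  have hp : ∀ x : L ⧸ I, p • x = 0 := fun x => by
    obtain ⟨a, rfl⟩ := hq x
    rw [← map_nsmul, ← AddMonoidHom.mem_ker, hk]
    exact ⟨a, rfl⟩
  let _ : Module (ZMod p) (L ⧸ I) := AddCommGroup.zmodModule hp
  refine ⟨L ⧸ I, inferInstance, ⟨fun t x y => ?_⟩, q, hq, fun _ _ => rfl, hk⟩
  obtain ⟨n, rfl⟩ := ZMod.intCast_surjective t
  rw [Int.cast_smul_eq_zsmul, Int.cast_smul_eq_zsmul, lie_zsmul]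

variable {p : ℕ} [hp : Fact p.Prime] {G : Type} [Group G] [Finite G]

lemma bud_quot {Q : Type} [Group Q] (π : G →* Q) (hπ : Function.Surjective π) (h : Bud p G) :
    Bud p Q := by
  intro M _
  have h1 := h (M.comap π)
  have h2 := card_preimage_hom π hπ M
  have h3 := card_preimage_hom π hπ Set.univ
  simp only [Set.preimage_univ, Nat.card_univ] at h3
  change Nat.card (M.comap π) = _ * Nat.card M at h2
  rw [cp_comap π hπ, h2, h3] at h1
  refine Nat.lt_of_mul_lt_mul_left (a := Nat.card π.ker ^ 2) ?_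
  calc _ = 10 * (Nat.card π.ker ^ 2 * cp M) := by ring
    _ < _ := h1
    _ = _ := by ring

lemma lcs_card (hG : IsPGroup p G) (k : ℕ) :
    p ^ k * Nat.card ((⊤ : Subgroup G).lowerCentralSeries k) ≤ Nat.card G ∨
      (⊤ : Subgroup G).lowerCentralSeries k = ⊥ := by
  induction k with
  | zero => left; simp
  | succ k ih =>
    rcases ih with ih | ih
    · by_cases h : (⊤ : Subgroup G).lowerCentralSeries k ≤
          (⊤ : Subgroup G).lowerCentralSeries (k + 1)
      · right
        have key : ∀ n, (⊤ : Subgroup G).lowerCentralSeries (k + 1) ≤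
            (⊤ : Subgroup G).lowerCentralSeries (k + 1 + n) := by
          intro n
          induction n with
          | zero => exact le_rfl
          | succ n ihn => exact Subgroup.commutator_mono (h.trans ihn) le_rfl
        obtain ⟨n, hn⟩ := Subgroup.nilpotent_iff_lowerCentralSeries.1 hG.isNilpotent
        exact eq_bot_iff.2 ((key n).trans
          (hn ▸ Subgroup.lowerCentralSeries_antitone _ (by omega)))
      · left
        have := card_lt_mul hG (Subgroup.lowerCentralSeries_antitone _ (Nat.le_succ k)) h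
        rw [pow_succ, mul_assoc]
        exact (Nat.mul_le_mul_left _ this).trans ih
    · right
      exact eq_bot_iff.2 (ih ▸ Subgroup.lowerCentralSeries_antitone _ (Nat.le_succ k))

lemma exists_quot (hG : IsPGroup p G) (c : ℕ) (hc : p ^ c ≤ Nat.card G) :
    ∃ (Q : Type) (_ : Group Q) (π : G →* Q), Function.Surjective π ∧ p ^ c ≤ Nat.card Q ∧
      (⊤ : Subgroup Q).lowerCentralSeries c = ⊥ := by
  rcases lcs_card hG c with h | h
  · refine ⟨G ⧸ (⊤ : Subgroup G).lowerCentralSeries c, inferInstance, QuotientGroup.mk' _,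
      QuotientGroup.mk'_surjective _, ?_, ?_⟩
    · rw [((⊤ : Subgroup G).lowerCentralSeries c).card_eq_card_quotient_mul_card_subgroup] at h
      exact Nat.le_of_mul_le_mul_right h Nat.card_pos
    · rw [← Subgroup.map_top_of_surjective _ (QuotientGroup.mk'_surjective
        ((⊤ : Subgroup G).lowerCentralSeries c)), ← Subgroup.map_lowerCentralSeries,
        Subgroup.map_eq_bot_iff, QuotientGroup.ker_mk']
  · exact ⟨G, inferInstance, MonoidHom.id G, Function.surjective_id, hc, h⟩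

lemma cube_zero (hG : IsPGroup p G) (hp5 : 5 ≤ p) (hB : Bud p G) {L : Type} [LieRing L]
    (Z : Laz G L) (x : L) : p ^ 3 • x = 0 := by
  have := Fintype.ofFinite G
  let K := Z.exp (nsmulAddMonoidHom (p ^ 3) : L →+ L).ker fun a ha b _ => by
    rw [AddMonoidHom.mem_ker, nsmulAddMonoidHom_apply] at ha ⊢
    rw [← nsmul_lie, ha, zero_lie]
  have hK : ∀ g, g ∈ K ↔ g ^ p ^ 3 = 1 := fun g => by
    rw [Laz.mem_exp, AddMonoidHom.mem_ker, nsmulAddMonoidHom_apply, ← Z.pow, Z.eq_one_iff]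
  by_contra hx
  have h1 : ¬ ⊤ ≤ K := fun h => hx (by
    have := h (Subgroup.mem_top (Z.ℓ.symm x))
    rwa [Laz.mem_exp, Equiv.apply_symm_apply] at this)
  have h2 := card_lt_mul hG le_top h1
  have h3 := card_layer (le_top : K ≤ ⊤)
  rw [Subgroup.card_top] at h2 h3
  refine hB.set ⊥ (layer ⊤ K) 0 (by nlinarith) fun y hy => ?_
  rw [mem_layer, hK] at hy
  obtain ⟨k, hk⟩ := (IsPGroup.iff_orderOf.1 hG) y
  have h4 : 4 ≤ k := by
    by_contra h
    exact hy.2 (orderOf_dvd_iff_pow_eq_one.1 (hk ▸ pow_dvd_pow p (by omega)))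
  have h5 := Subgroup.card_le_of_le
    ((Subgroup.zpowers_le (G := G)).2 (self_mem_cen ⊥ y))
  rw [Nat.card_zpowers, hk] at h5
  simpa using (Nat.pow_le_pow_right hp.out.pos h4).trans h5

lemma countBud (hB : Bud p G) {L A : Type} [LieRing L] [LieRing A] [LieAlgebra (ZMod p) A]
    (Z : Laz G L) (q : L →+ A) (hq : Function.Surjective q) (hl : ∀ x y, q ⁅x, y⁆ = ⁅q x, q y⁆) :
    CountBud p A := by
  intro I
  have : Finite L := Finite.of_equiv G Z.ℓ
  let J : AddSubgroup L := I.toSubmodule.toAddSubgroup.comap q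
  have hJ : ∀ a ∈ J, ∀ b, ⁅a, b⁆ ∈ J := fun a ha b => by
    show q ⁅a, b⁆ ∈ I
    rw [hl]
    exact lie_mem_left (ZMod p) A I _ _ ha
  have := Z.exp_normal J hJ
  have h1 := hB (Z.exp J fun a ha b _ => hJ a ha b)
  have h2 : Nat.card (Z.exp J fun a ha b _ => hJ a ha b) = Nat.card q.ker * Nat.card I := by
    refine Eq.trans ?_ (card_pre_add q hq I)
    exact Nat.card_congr (Z.ℓ.subtypeEquiv fun _ => Iff.rfl)
  have h3 : Nat.card G = Nat.card q.ker * Nat.card A := by
    have := card_pre_add q hq Set.univ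
    simp only [Set.preimage_univ, Nat.card_univ] at this
    rw [← this]
    exact Nat.card_congr Z.ℓ
  have h4 : cp (Z.exp J fun a ha b _ => hJ a ha b) =
      Nat.card q.ker ^ 2 * Nat.card {x : A × A // ⁅x.1, x.2⁆ ∈ I} := by
    have h := card_pre_add (q.prodMap q) (hq.prodMap hq) {x | ⁅x.1, x.2⁆ ∈ I}
    rw [AddMonoidHom.ker_prodMap, Nat.card_congr (AddSubgroup.prodEquiv _ _).toEquiv,
      Nat.card_prod] at h
    rw [sq]
    refine Eq.trans ?_ h
    refine Nat.card_congr ((Z.ℓ.prodCongr Z.ℓ).subtypeEquiv fun x => ?_)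
    rw [Laz.mem_exp, Z.comm_mem_iff J (fun v hv => hJ v hv _) (fun v hv => hJ v hv _)]
    show q _ ∈ I ↔ _
    rw [hl]
    rfl
  rw [h2, h3, h4] at h1
  refine Nat.lt_of_mul_lt_mul_left (a := Nat.card q.ker ^ 2) ?_
  calc _ = 10 * (Nat.card q.ker ^ 2 * Nat.card {x : A × A // ⁅x.1, x.2⁆ ∈ I}) := by ring
    _ < _ := h1
    _ = Nat.card q.ker ^ 2 * (8 * p ^ 4 * Nat.card A * Nat.card I) := by ring
    _ ≤ _ := by gcongr; norm_num

lemma nilp {L A : Type} [LieRing L] [LieRing A]
    (Z : Laz G L) (q : L →+ A) (hq : Function.Surjective q) (hl : ∀ x y, q ⁅x, y⁆ = ⁅q x, q y⁆) :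
    LieRing.IsNilpotent A := by
  have hid : ∀ k, ∀ a ∈ (Z.Φ k).map q, ∀ b, ⁅a, b⁆ ∈ (Z.Φ (k + 1)).map q := by
    rintro k _ ⟨a, ha, rfl⟩ b
    obtain ⟨b, rfl⟩ := hq b
    exact ⟨_, Z.Φ_lie k a ha b, hl a b⟩
  let I : ℕ → LieIdeal ℤ A := fun k => toId ((Z.Φ k).map q) fun a ha b =>
    AddSubgroup.map_mono (Z.Φ_anti (Nat.le_succ k)) (hid k a ha b)
  have key : ∀ k, LieModule.lowerCentralSeries ℤ A A k ≤ I k := by
    intro k
    induction k with
    | zero =>
      intro a _
      obtain ⟨b, rfl⟩ := hq a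
      exact ⟨b, by rw [Z.Φ_zero]; trivial, rfl⟩
    | succ k ih =>
      rw [LieModule.lowerCentralSeries_succ, LieSubmodule.lie_le_iff]
      intro x _ m hm
      rw [← lie_skew]
      exact neg_mem (hid k m (ih hm) x)
  refine ⟨⟨Z.c, eq_bot_iff.2 ((key _).trans fun a ha => ?_)⟩⟩
  obtain ⟨b, hb, rfl⟩ := ha
  rw [Z.Φ_top] at hb
  obtain rfl : b = 0 := hb
  simp

theorem exists_gfil (hC : ClassStmt) (R : ℕ) : ∃ m p₀ : ℕ, ∀ (p : ℕ) [Fact p.Prime], p₀ ≤ p →
    ∀ (G : Type) [Group G] [Finite G], IsPGroup p G → p ^ m ≤ Nat.card G → Bud p G →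
      ∃ μ, (μ = 2 ∨ μ = 3 ∨ μ = 4) ∧ Nonempty (GFil p G μ R) := by
  obtain ⟨m, p₀, h⟩ := hC R
  refine ⟨3 * m + 1, p₀ + 3 * m + 5, fun p hp hp0 G _ _ hG hc hB => ?_⟩
  obtain ⟨Q, _, π, hπ, hQ, hn⟩ := exists_quot hG _ hc
  have : Finite Q := Finite.of_surjective π hπ
  have hQp : IsPGroup p Q := hG.of_surjective π hπ
  have hQB := bud_quot π hπ hB
  obtain ⟨L, _, Z, -⟩ := lazard p Q hQp (3 * m + 1) (by omega) (by omega) hn
  have : Finite L := Finite.of_equiv Q Z.ℓ
  obtain ⟨A, _, _, q, hq, hl, hk⟩ := exists_red p L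
  have : Finite A := Finite.of_surjective q hq
  have hA : p ^ m ≤ Nat.card A := by
    let f : L →+ L := nsmulAddMonoidHom p
    have e1 := card_pre_add q hq Set.univ
    have e2 := card_pre_add f.rangeRestrict f.rangeRestrict_surjective Set.univ
    simp only [Set.preimage_univ, Nat.card_univ, AddMonoidHom.ker_rangeRestrict] at e1 e2
    rw [hk, e2, mul_comm] at e1
    have e3 : Nat.card f.ker = Nat.card A := Nat.eq_of_mul_eq_mul_left Nat.card_pos e1
    have b1 := card_le_ker_mul f ⊤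
    have b2 := card_le_ker_mul f ((⊤ : AddSubgroup L).map f)
    have b3 := card_le_ker_mul f (((⊤ : AddSubgroup L).map f).map f)
    have b4 : (((⊤ : AddSubgroup L).map f).map f).map f = ⊥ := by
      refine eq_bot_iff.2 ?_
      rintro _ ⟨_, ⟨_, ⟨x, -, rfl⟩, rfl⟩, rfl⟩
      have := cube_zero hQp (by omega) hQB Z x
      rw [pow_succ, pow_two, mul_smul, mul_smul] at this
      exact this
    rw [b4, AddSubgroup.card_bot, mul_one] at b3
    rw [AddSubgroup.card_top, ← Nat.card_congr Z.ℓ] at b1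
    rw [e3] at b1 b2 b3
    have b5 : (p ^ m) ^ 3 ≤ Nat.card A ^ 3 :=
      calc _ ≤ p ^ (3 * m + 1) := by
            rw [← pow_mul]; exact Nat.pow_le_pow_right hp.out.pos (by omega)
        _ ≤ _ := hQ
        _ ≤ _ := b1
        _ ≤ Nat.card A * (Nat.card A * Nat.card A) :=
            Nat.mul_le_mul_left _ (b2.trans (Nat.mul_le_mul_left _ b3))
        _ = _ := by ring
    exact (Nat.pow_le_pow_iff_left (by norm_num)).1 b5
  obtain ⟨μ, hμ, ⟨P⟩⟩ := h p (by omega) A (nilp Z q hq hl) hA (countBud hQB Z q hq hl)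
  refine ⟨μ, hμ, gfil hμ P (fun g => q (Z.ℓ (π g))) (hq.comp (Z.ℓ.surjective.comp hπ))
    Z.βm Z.βc Z.βc_nil (fun g => ?_) ?_ (fun g h => ?_) (fun g h => ?_)⟩
  · simp only [map_inv, Z.inv, map_neg]
  · simp only [map_one, Z.one, map_zero]
  · simp only [map_mul, Z.mul, map_add, map_evC q hl]
  · simp only [map_commutatorElement, Z.comm, map_add, map_evC q hl, hl]

end Base

end Pool.Agent.P78
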