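import Pool.Agent.Lib.MP_78c6b1_al.Base.A

/-! The N-series generated by the first terms of a given N-series. -/

set_option autoImplicit false
set_option linter.unusedSectionVars false

namespace Pool.Agent.P78

open scoped commutatorElement

namespace Base

variable {G : Type} [Group G]

/-- elements commuting with `B` modulo `M` -/
def cenS (M : Subgroup G) [M.Normal] (B : Subgroup G) : Subgroup G := ⨅ v : B, cen M v

lemma le_cenS {M : Subgroup G} [M.Normal] {B C : Subgroup G} : C ≤ cenS M B ↔ ⁅B, C⁆ ≤ M := by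
  rw [cenS, le_iInf_iff, Subgroup.commutator_le]
  exact ⟨fun h v hv u hu => h ⟨v, hv⟩ hu, fun h v u hu => h v v.2 u hu⟩

lemma comm_sup_right {M : Subgroup G} [M.Normal] {A B C : Subgroup G} (h1 : ⁅A, B⁆ ≤ M)
    (h2 : ⁅A, C⁆ ≤ M) : ⁅A, B ⊔ C⁆ ≤ M := le_cenS.1 (sup_le (le_cenS.2 h1) (le_cenS.2 h2))

lemma comm_sup_left {M : Subgroup G} [M.Normal] {A B C : Subgroup G} (h1 : ⁅B, A⁆ ≤ M)
    (h2 : ⁅C, A⁆ ≤ M) : ⁅B ⊔ C, A⁆ ≤ M := by
  rw [Subgroup.commutator_comm] at h1 h2 ⊢
  exact comm_sup_right h1 h2

lemma le_of_le_sup_comm (S : NSer G) (hS : ∃ n, S.F n = ⊥) {K N : Subgroup G} [K.Normal]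
    (h : N ≤ K ⊔ ⁅N, ⊤⁆) : N ≤ K := by
  have key : ∀ n, N ≤ K ⊔ S.F (n + 1) := by
    intro n
    induction n with
    | zero => rw [zero_add, S.one]; simp
    | succ n ih =>
      refine h.trans (sup_le le_sup_left ((Subgroup.commutator_mono ih le_rfl).trans ?_))
      refine comm_sup_left ((Subgroup.commutator_le_left _ _).trans le_sup_left) ?_
      have := S.comm (n + 1) 1
      rw [S.one] at this
      exact this.trans le_sup_right
  obtain ⟨n, hn⟩ := hS
  have := (key n).trans (sup_le_sup_left (S.anti (Nat.le_succ n)) K)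
  rwa [hn, sup_bot_eq] at this

variable (H : NSer G) (μ : ℕ)

/-- the smallest N-series containing the terms of `H` up to `μ` -/
def hull : NSer G where
  F i := ⨅ E : {E : NSer G // ∀ k, k ≤ μ → H.F k ≤ E.F k}, E.1.F i
  normal i := Subgroup.normal_iInf_normal fun E => E.1.normal i
  anti _ _ h := iInf_mono fun E => E.1.anti h
  comm i j := le_iInf fun E =>
    (Subgroup.commutator_mono (iInf_le _ E) (iInf_le _ E)).trans (E.1.comm i j)
  one := eq_top_iff.2 (le_iInf fun E => E.1.one.ge)

variable {H μ}

lemma hull_le (E : NSer G) (hE : ∀ k, k ≤ μ → H.F k ≤ E.F k) (i : ℕ) : (hull H μ).F i ≤ E.F i :=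
  iInf_le (fun E : {E : NSer G // ∀ k, k ≤ μ → H.F k ≤ E.F k} => E.1.F i) ⟨E, hE⟩

lemma hull_le_self (i : ℕ) : (hull H μ).F i ≤ H.F i := hull_le H (fun _ _ => le_rfl) i

lemma le_hull {i : ℕ} (hi : i ≤ μ) : H.F i ≤ (hull H μ).F i := le_iInf fun E => E.2 i hi

lemma hull_eq {i : ℕ} (hi : i ≤ μ) : (hull H μ).F i = H.F i :=
  le_antisymm (hull_le_self i) (le_hull hi)

lemma hull_gen₀ (hμ : 1 ≤ μ) {n : ℕ} (hn : μ < n) (K : Subgroup G) [K.Normal]
    (h1 : (hull H μ).F (n + 1) ≤ K)
    (h2 : ∀ a b, 1 ≤ a → 1 ≤ b → a + b = n → ⁅(hull H μ).F a, (hull H μ).F b⁆ ≤ K) :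
    (hull H μ).F n ≤ K := by
  set S := hull H μ with hS
  have hle : ∀ i, (if i = n then S.F n ⊓ K else S.F i) ≤ S.F i := fun i => by
    split_ifs with h
    · subst h; exact inf_le_left
    · exact le_rfl
  have hnm : ∀ i, (if i = n then S.F n ⊓ K else S.F i).Normal := fun i => by
    split_ifs <;> infer_instance
  let E : NSer G :=
    { F := fun i => if i = n then S.F n ⊓ K else S.F i
      normal := hnm
      anti := fun i j h => by
        by_cases hi : i = n
        · by_cases hj : j = n
          · rw [hi, hj]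
          · simp only [if_pos hi, if_neg hj]
            exact le_inf (S.anti (by omega)) ((S.anti (by omega)).trans h1)
        · simp only [if_neg hi]
          exact (hle j).trans (S.anti h)
      comm := fun i j => by
        have := hnm n
        by_cases hi : i = 0
        · rw [hi, zero_add]
          have := hnm j
          exact Subgroup.commutator_le_right _ _
        by_cases hj : j = 0
        · rw [hj, add_zero]
          have := hnm i
          exact Subgroup.commutator_le_left _ _
        refine (Subgroup.commutator_mono (hle i) (hle j)).trans ?_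
        split_ifs with h
        · exact le_inf (h ▸ S.comm i j) (h2 i j (by omega) (by omega) h)
        · exact S.comm i j
      one := by rw [if_neg (by omega)]; exact S.one }
  have := hull_le (H := H) (μ := μ) E (fun k hk => by
    show _ ≤ if k = n then S.F n ⊓ K else S.F k
    rw [if_neg (by omega)]
    exact le_hull hk) n
  change _ ≤ if n = n then S.F n ⊓ K else S.F n at this
  rw [if_pos rfl] at this
  exact this.trans inf_le_right

lemma hull_gen (hμ : 1 ≤ μ) (n : ℕ) (hn : μ < n) (K : Subgroup G)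
    (h1 : (hull H μ).F (n + 1) ≤ K)
    (h2 : ∀ k l, 1 ≤ k → k ≤ μ → k + l = n → ⁅(hull H μ).F l, (hull H μ).F k⁆ ≤ K) :
    (hull H μ).F n ≤ K := by
  set S := hull H μ with hS
  rw [← Subgroup.normal_le_normalCore] at h1 ⊢
  have key : ∀ a, 1 ≤ a → ∀ b, a + b = n → ⁅S.F b, S.F a⁆ ≤ K.normalCore := by
    intro a
    induction a using Nat.strong_induction_on with
    | _ a ih =>
      intro ha b hab
      by_cases haμ : a ≤ μ
      · exact Subgroup.normal_le_normalCore.2 (h2 a b ha haμ hab)
      have : (cenS K.normalCore (S.F b)).Normal := ⟨fun x hx g => by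
        rw [cenS, Subgroup.mem_iInf] at hx ⊢
        intro v
        have h5 := hx ⟨g⁻¹ * v * g⁻¹⁻¹, NSer.conj_mem v.2 g⁻¹⟩
        rw [mem_cen] at h5 ⊢
        have := (inferInstance : K.normalCore.Normal).conj_mem _ h5 g
        convert this using 1
        simp [commutatorElement_def, mul_assoc]⟩
      refine le_cenS.1 (hull_gen₀ hμ (by omega) _ (le_cenS.2 ?_) fun c d hc hd hcd => le_cenS.2 ?_)
      · exact (S.comm _ _).trans ((S.anti (by omega)).trans h1)
      · rw [Subgroup.commutator_comm]
        refine three_subgroups ?_ ?_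
        · exact (Subgroup.commutator_mono (S.comm _ _) le_rfl).trans
            (ih c (by omega) hc _ (by omega))
        · exact (Subgroup.commutator_mono (S.comm _ _) le_rfl).trans
            (ih d (by omega) hd _ (by omega))
  exact hull_gen₀ hμ hn _ h1 fun a b ha hb hab => key b hb a (by omega)

lemma hull_term (hμ : μ ≤ 4) (hG : Group.IsNilpotent G) : ∃ n, (hull H μ).F n = ⊥ := by
  let E : NSer G :=
    { F := fun i => (⊤ : Subgroup G).lowerCentralSeries ((i - 1) / 4)
      normal := fun _ => inferInstance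
      anti := fun _ _ h => Subgroup.lowerCentralSeries_antitone _ (by omega)
      comm := fun i j => (lcs_comm _ _).trans (Subgroup.lowerCentralSeries_antitone _ (by omega))
      one := rfl }
  obtain ⟨c, hc⟩ := Subgroup.nilpotent_iff_lowerCentralSeries.1 hG
  refine ⟨4 * c + 1, eq_bot_iff.2 ((hull_le E (fun k hk => ?_) _).trans ?_)⟩
  · show _ ≤ (⊤ : Subgroup G).lowerCentralSeries ((k - 1) / 4)
    rw [show (k - 1) / 4 = 0 by omega]
    exact le_top
  · show (⊤ : Subgroup G).lowerCentralSeries ((4 * c + 1 - 1) / 4) ≤ ⊥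
    rw [show (4 * c + 1 - 1) / 4 = c by omega, hc]

lemma hull_le_comm (hμ : 1 ≤ μ) {n : ℕ} (hn : μ < n) :
    (hull H μ).F n ≤ ⁅(⊤ : Subgroup G), (⊤ : Subgroup G)⁆ := by
  let E : NSer G :=
    { F := fun i => if i ≤ μ then ⊤ else ⁅(⊤ : Subgroup G), (⊤ : Subgroup G)⁆
      normal := fun _ => by split_ifs <;> infer_instance
      anti := fun i j h => by
        simp only
        split_ifs
        exacts [le_rfl, by omega, le_top, le_rfl]
      comm := fun i j => (Subgroup.commutator_mono le_top le_top).trans (by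
        split_ifs
        exacts [le_top, le_rfl])
      one := if_pos hμ }
  have := hull_le (H := H) (μ := μ) E (fun k hk => by
    show _ ≤ if k ≤ μ then ⊤ else _
    rw [if_pos hk]; exact le_top) n
  change _ ≤ if n ≤ μ then ⊤ else _ at this
  rwa [if_neg (by omega)] at this

end Base

end Pool.Agent.P78
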