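import Pool.Agent.Lib.MP_78c6b1_al.Base.B
import Pool.Agent.Lib.MP_78c6b1_al.Base.C

/-! The start of the propagation. -/

set_option autoImplicit false
set_option linter.unusedSectionVars false

namespace Pool.Agent.P78

open scoped commutatorElement IsMulCommutative

namespace Base

variable {p : ℕ} [hp : Fact p.Prime] {G : Type} [Group G] [Finite G] {μ R : ℕ}
  (P : GFil p G μ R)

lemma levF {i : ℕ} (h1 : 1 ≤ i) (hi : i ≤ R) : IsLev (hull P.H μ) i (P.ε i) :=
  ⟨fun a ha b hb => (P.lev i h1 hi).add a (hull_le_self i ha) b (hull_le_self i hb),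
    fun a ha => (P.lev i h1 hi).zero a (hull_le_self _ ha)⟩

lemma exists_f (hμ : μ = 2 ∨ μ = 3 ∨ μ = 4) (hpR : R ≤ p) (i : ℕ) (hi : i ≤ R) (hS : inS μ i) :
    ∃ f ∈ (hull P.H μ).F i, P.ε i f = 1 := by
  induction i using Nat.strong_induction_on with
  | _ i ih =>
    by_cases h : i ≤ μ
    · exact ⟨P.e i, le_hull h (P.e_mem i hi hS), P.e_one i hi hS⟩
    obtain ⟨a, b, ha, hb, hab, rfl⟩ : ∃ a b, inS μ a ∧ inS μ b ∧ a < b ∧ a + b = i := by
      by_cases h4 : μ = 4
      · exact ⟨2, i - 2, by unfold inS; omega, by unfold inS; omega, by omega, by omega⟩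
      · exact ⟨1, i - 1, by unfold inS; omega, by unfold inS; omega, by omega, by omega⟩
    have ha1 := ha.1
    have hb1 := hb.1
    obtain ⟨f, hf, hf1⟩ := ih a (by omega) (by omega) ha
    obtain ⟨g, hg, hg1⟩ := ih b (by omega) (by omega) hb
    have hne : (b : ZMod p) - a ≠ 0 := cast_sub_ne hab (by omega)
    have hm := NSer.comm_mem hf hg
    refine ⟨⁅f, g⁆ ^ ((b : ZMod p) - a)⁻¹.val, pow_mem hm _, ?_⟩
    rw [(levF P (by omega) hi).pow_val hm, P.br a b ha1 hb1 hi f (hull_le_self _ hf) g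
      (hull_le_self _ hg), hf1, hg1, mul_one, mul_one, inv_mul_cancel₀ hne]

lemma gap_le (hμ : μ = 2 ∨ μ = 3 ∨ μ = 4) {i : ℕ} (h1 : 1 ≤ i) (hS : ¬ inS μ i) : i + 1 ≤ μ := by
  unfold inS at hS; omega

lemma H_le (hμ : μ = 2 ∨ μ = 3 ∨ μ = 4) (hpR : R ≤ p) (i : ℕ) (hi : i ≤ R + 1) :
    P.H.F i ≤ (hull P.H μ).F i ⊔ P.H.F (R + 1) := by
  induction hi using Nat.decreasingInduction with
  | self => exact le_sup_right
  | of_succ i hi ih =>
    by_cases h : i ≤ μ
    · exact (le_hull h).trans le_sup_left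
    have hS : inS μ i := inS_of_le (by omega)
    obtain ⟨f, hf, hf1⟩ := exists_f P hμ hpR i (by omega) hS
    intro a ha
    have hl := P.lev i hS.1 (by omega)
    have hf' := pow_mem (hull_le_self i hf) (P.ε i a).val
    have h1 : a * (f ^ (P.ε i a).val)⁻¹ ∈ P.H.F (i + 1) := by
      refine P.ker i hS.1 (by omega) _ (mul_mem ha (inv_mem hf')) ?_
      rw [hl.add _ ha _ (inv_mem hf'), hl.inv hf', hl.pow_val (hull_le_self i hf), hf1]; ring
    have h2 := mul_mem ((sup_le_sup_right ((hull P.H μ).anti (Nat.le_succ i)) _) (ih h1))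
      (Subgroup.mem_sup_left (pow_mem hf (P.ε i a).val))
    rwa [inv_mul_cancel_right] at h2

lemma card_up {i : ℕ} (h1 : 1 ≤ i) (hi : i ≤ R) :
    Nat.card (P.H.F i) ≤ p * Nat.card (P.H.F (i + 1)) := by
  have := card_le_of_fun (P.ε i) (P.lev i h1 hi).add (P.ker i h1 hi)
  rwa [Nat.card_zmod] at this

lemma not_le {i : ℕ} (hi : i ≤ R) (hS : inS μ i) : ¬ P.H.F i ≤ P.H.F (i + 1) := fun h => by
  have := (P.lev i hS.1 hi).zero _ (h (P.e_mem i hi hS))
  rw [P.e_one i hi hS] at this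
  exact one_ne_zero this

lemma card_seg (hG : IsPGroup p G) (k a : ℕ) (ha : 3 ≤ a) (h : a + k = R + 1) :
    p ^ k * Nat.card (P.H.F (R + 1)) ≤ Nat.card (P.H.F a) := by
  induction k generalizing a with
  | zero => simp [← h]
  | succ k ih =>
    have h1 := ih (a + 1) (by omega) (by omega)
    have h2 := card_lt_mul hG (P.H.anti (Nat.le_succ a)) (not_le P (by omega) (inS_of_le ha))
    rw [pow_succ', mul_assoc]
    exact (Nat.mul_le_mul_left _ h1).trans h2

lemma large_ne (hG : IsPGroup p G) (hB : Bud p G) (hμ : μ = 2 ∨ μ = 3 ∨ μ = 4) (hR : 20 ≤ R)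
    (hpR : R ≤ p) (h2 : μ ≠ 2) : P.H.F (R + 1) ≤ (hull P.H μ).F (R + 1) := by
  refine le_of_le_sup_comm (hull P.H μ) (hull_term (by omega) hG.isNilpotent) ?_
  by_contra hN
  set M := (hull P.H μ).F (R + 1) ⊔ ⁅P.H.F (R + 1), ⊤⁆ with hM
  have hle : M ≤ P.H.F (R + 1) := sup_le (hull_le_self _) (Subgroup.commutator_le_left _ _)
  have hc := card_lt_mul hG hle hN
  have hS : inS μ μ := by unfold inS; omega
  refine hB.large hG (by omega) (M := M) (B := P.H.F (R + 1 - μ)) (J' := P.H.F (μ + 1))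
    (J := P.H.F μ) (P.H.anti (by omega)) (P.H.anti (by omega)) (not_le P (by omega) hS) ?_
    (μ - 2) ?_ ?_
  · refine Subgroup.commutator_le.1 ((Subgroup.commutator_mono (le_hull le_rfl)
      (H_le P hμ hpR _ (by omega))).trans (comm_sup_right ?_ ?_))
    · exact ((hull P.H μ).comm _ _).trans (((hull P.H μ).anti (by omega)).trans le_sup_left)
    · rw [Subgroup.commutator_comm]
      exact (Subgroup.commutator_mono le_rfl le_top).trans le_sup_right
  · have e1 := card_up P (i := 1) le_rfl (by omega)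
    have e2 := card_up P (i := 2) (by omega) (by omega)
    have e3 := card_up P (i := 3) (by omega) (by omega)
    rw [← Subgroup.card_top (G := G), ← P.H.one]
    rcases hμ with rfl | rfl | rfl
    · omega
    · rw [← P.gap 2 (by omega) (by decide)]
      simpa using e1
    · rw [P.gap 1 (by omega) (by decide)]
      refine e2.trans ?_
      rw [show 4 - 2 = 2 from rfl, pow_two, mul_assoc]
      exact Nat.mul_le_mul_left _ e3
  · refine le_trans ?_ (card_seg P hG μ _ (by omega) (by omega))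
    rw [show 3 + (μ - 2) = μ + 1 by omega, pow_succ, mul_assoc]
    exact Nat.mul_le_mul_left _ hc

lemma large_two (P : GFil p G 2 R) (hG : IsPGroup p G) (hB : Bud p G) (hR : 20 ≤ R)
    (hpR : R ≤ p) (M : Subgroup G) [M.Normal] (h1 : (hull P.H 2).F (R + 1) ≤ M)
    (h2 : ⁅⁅P.H.F (R + 1), (⊤ : Subgroup G)⁆, (⊤ : Subgroup G)⁆ ≤ M) (h3 : ⁅P.H.F (R + 1), P.H.F (R + 1)⁆ ≤ M)
    (h4 : p * (p * Nat.card M) ≤ Nat.card (P.H.F (R + 1))) : False := by
  have h5 : ⁅⁅(⊤ : Subgroup G), (⊤ : Subgroup G)⁆, P.H.F (R + 1)⁆ ≤ M :=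
    three_subgroups (by rwa [Subgroup.commutator_comm ⊤]) h2
  have h6 : ∀ i, 3 ≤ i → ⁅(hull P.H 2).F i, P.H.F (R + 1)⁆ ≤ M := fun i hi =>
    (Subgroup.commutator_mono (hull_le_comm (by omega) hi) le_rfl).trans h5
  refine hB.large hG (by omega) (M := M) (B := P.H.F (R - 2)) (J' := P.H.F (3 + 1))
    (J := P.H.F 3) (P.H.anti (by omega)) (P.H.anti (by omega))
    (not_le P (by omega) (inS_of_le le_rfl)) ?_ 2 ?_ ?_
  · refine Subgroup.commutator_le.1 ((Subgroup.commutator_mono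
      (H_le P (Or.inl rfl) hpR _ (by omega)) (H_le P (Or.inl rfl) hpR _ (by omega))).trans
      (comm_sup_right (comm_sup_left ?_ ?_) (comm_sup_left (h6 3 le_rfl) h3)))
    · exact ((hull P.H 2).comm _ _).trans (((hull P.H 2).anti (by omega)).trans h1)
    · rw [Subgroup.commutator_comm]
      exact h6 _ (by omega)
  · have e1 := card_up P (i := 1) le_rfl (by omega)
    have e2 := card_up P (i := 2) (by omega) (by omega)
    rw [← Subgroup.card_top (G := G), ← P.H.one, pow_two, mul_assoc]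
    exact e1.trans (Nat.mul_le_mul_left _ e2)
  · refine le_trans ?_ (card_seg P hG 3 _ (by omega) (by omega))
    rw [pow_add, mul_assoc, pow_two, mul_assoc]
    exact Nat.mul_le_mul_left _ h4

lemma excess_two (P : GFil p G 2 R) (hG : IsPGroup p G) (hB : Bud p G) (hR : 20 ≤ R)
    (hpR : R ≤ p) (hN : ¬ P.H.F (R + 1) ≤ (hull P.H 2).F (R + 1)) :
    ∃ z ∈ P.H.F (R + 1), z ∉ (hull P.H 2).F (R + 1) ∧ z ^ p ∈ (hull P.H 2).F (R + 1) ∧
      P.H.F (R + 1) ≤ (hull P.H 2).F (R + 1) ⊔ Subgroup.zpowers z := by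
  have hterm := hull_term (H := P.H) (μ := 2) (by omega) hG.isNilpotent
  set M := (hull P.H 2).F (R + 1) ⊔ ⁅P.H.F (R + 1), ⊤⁆ with hM
  have hle : M ≤ P.H.F (R + 1) := sup_le (hull_le_self _) (Subgroup.commutator_le_left _ _)
  have hN' : ¬ P.H.F (R + 1) ≤ M := fun h => hN (le_of_le_sup_comm _ hterm h)
  obtain ⟨z, hz, hzM⟩ := SetLike.not_le_iff_exists.1 hN'
  have hsmall : ¬ p * (p * Nat.card M) ≤ Nat.card (P.H.F (R + 1)) :=
    large_two P hG hB hR hpR M le_sup_left
      ((Subgroup.commutator_le_left _ _).trans le_sup_right)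
      ((Subgroup.commutator_mono le_rfl le_top).trans le_sup_right)
  have hD : P.H.F (R + 1) ≤ M ⊔ Subgroup.zpowers z := by
    by_contra h
    refine hsmall ((Nat.mul_le_mul_left _ (card_lt_mul hG le_sup_left fun h' => hzM ?_)).trans
      (card_lt_mul hG (sup_le hle (by simpa using hz)) h))
    exact h' (Subgroup.mem_sup_right (Subgroup.mem_zpowers z))
  have hpow : z ^ p ∈ M := by
    obtain ⟨n, hn⟩ := (hG.to_subgroup (P.H.F (R + 1))).index (M.subgroupOf (P.H.F (R + 1)))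
    change M.relIndex _ = p ^ n at hn
    have h1 := M.pow_relIndex_mem hz
    have h2 := card_relIndex hle
    rw [hn] at h1 h2
    obtain rfl | rfl | h : n = 0 ∨ n = 1 ∨ 2 ≤ n := by omega
    · exact absurd (by simpa using h1) hzM
    · simpa using h1
    · refine absurd ?_ hsmall
      rw [← h2, ← mul_assoc, mul_comm, ← pow_two]
      exact Nat.mul_le_mul_left _ (Nat.pow_le_pow_right hp.out.pos h)
  have hMF : M ≤ (hull P.H 2).F (R + 1) := by
    refine le_of_le_sup_comm _ hterm ?_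
    by_contra h
    have hle2 : (hull P.H 2).F (R + 1) ⊔ ⁅M, ⊤⁆ ≤ M :=
      sup_le le_sup_left (Subgroup.commutator_le_left _ _)
    refine large_two P hG hB hR hpR ((hull P.H 2).F (R + 1) ⊔ ⁅M, ⊤⁆) le_sup_left
      ((Subgroup.commutator_mono le_sup_right le_rfl).trans le_sup_right) ?_
      ((Nat.mul_le_mul_left _ (card_lt_mul hG hle2 h)).trans (card_lt_mul hG hle hN'))
    refine (Subgroup.commutator_mono hD hD).trans (comm_sup_left
      ((Subgroup.commutator_mono le_rfl le_top).trans le_sup_right) (comm_sup_right ?_ ?_))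
    · rw [Subgroup.commutator_comm]
      exact (Subgroup.commutator_mono le_rfl le_top).trans le_sup_right
    · rw [Subgroup.commutator_le]
      rintro _ ⟨a, rfl⟩ _ ⟨b, rfl⟩
      rw [commutatorElement_eq_one_iff_commute.2 ((Commute.refl z).zpow_zpow a b)]
      exact one_mem _
  exact ⟨z, hz, fun h => hzM (Subgroup.mem_sup_left h), hMF hpow,
    hD.trans (sup_le_sup_right hMF _)⟩

lemma excess (hG : IsPGroup p G) (hB : Bud p G) (hμ : μ = 2 ∨ μ = 3 ∨ μ = 4) (hR : 20 ≤ R)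
    (hpR : R ≤ p) : ∃ z ∈ P.H.F (R + 1), ∃ w, 2 ≤ w ∧ w ≤ R ∧ z ∈ (hull P.H μ).F w ∧
      z ^ p ∈ (hull P.H μ).F (R + 1) ∧
      P.H.F (R + 1) ≤ (hull P.H μ).F (R + 1) ⊔ Subgroup.zpowers z ∧
      (z = 1 ∨ (μ = 2 ∧ z ∉ (hull P.H μ).F (w + 1))) := by
  classical
  by_cases hN : P.H.F (R + 1) ≤ (hull P.H μ).F (R + 1)
  · exact ⟨1, one_mem _, 2, le_rfl, by omega, one_mem _, by simp, hN.trans le_sup_left,
      Or.inl rfl⟩
  obtain rfl : μ = 2 := by_contra fun h => hN (large_ne P hG hB hμ hR hpR h)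
  obtain ⟨z, h1, h2, h3, h4⟩ := excess_two P hG hB hR hpR hN
  have hex : ∃ i, z ∉ (hull P.H 2).F (i + 1) := ⟨R, h2⟩
  have h5 : z ∈ (hull P.H 2).F 2 := le_hull le_rfl (P.H.anti (by omega) h1)
  have h6 : 2 ≤ Nat.find hex := by
    by_contra h
    exact Nat.find_spec hex ((hull P.H 2).anti (by omega) h5)
  refine ⟨z, h1, Nat.find hex, h6, Nat.find_min' hex h2, ?_, h3, h4,
    Or.inr ⟨rfl, Nat.find_spec hex⟩⟩
  have := Nat.find_min hex (m := Nat.find hex - 1) (by omega)
  rwa [not_not, show Nat.find hex - 1 + 1 = Nat.find hex by omega] at this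

lemma mem_of_coprime {K : Subgroup G} {z : G} {n : ℕ} (h1 : z ^ p ∈ K) (h2 : z ^ n ∈ K)
    (h : ¬ p ∣ n) : z ∈ K := by
  have hc : Nat.gcd p n = 1 := (Nat.Prime.coprime_iff_not_dvd hp.out).2 h
  have e := Nat.gcd_eq_gcd_ab p n
  rw [hc] at e
  have := mul_mem (zpow_mem h1 (Nat.gcdA p n)) (zpow_mem h2 (Nat.gcdB p n))
  rwa [← zpow_natCast, ← zpow_natCast, ← zpow_mul, ← zpow_mul, ← zpow_add, ← e, Nat.cast_one,
    zpow_one] at this

include P in
theorem base_of_gfil (hG : IsPGroup p G) (hB : Bud p G) (hμ : μ = 2 ∨ μ = 3 ∨ μ = 4)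
    (hR : 20 ≤ R) (hpR : R ≤ p) : ∃ (X : Ctx p G) (T : St X R), T.Good := by
  obtain ⟨z, hzN, w, hw2, hwR, hzw, hzp, hN, hz⟩ := excess P hG hB hμ hR hpR
  set S := hull P.H μ with hS
  have hk0 : ∀ i, 1 ≤ i → i ≤ R → ∀ a ∈ S.F i, P.ε i a = 0 →
      ∃ n : ℕ, a * (z ^ n)⁻¹ ∈ S.F (i + 1) := by
    intro i h1 hi a ha h0
    have h2 := (sup_le le_sup_left (hN.trans (sup_le_sup_right (S.anti (by omega)) _)) :
      _ ≤ S.F (i + 1) ⊔ Subgroup.zpowers z)
      (H_le P hμ hpR (i + 1) (by omega) (P.ker i h1 hi a (hull_le_self i ha) h0))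
    obtain ⟨y, hy, u, hu, rfl⟩ := Subgroup.mem_sup_of_normal_left.1 h2
    obtain ⟨n, rfl⟩ := (isOfFinOrder_of_finite z).mem_powers_iff_mem_zpowers.2 hu
    exact ⟨n, by simpa using hy⟩
  have hk : ∀ i, 1 ≤ i → i ≤ R → i ≠ w → ∀ a ∈ S.F i, P.ε i a = 0 → a ∈ S.F (i + 1) := by
    intro i h1 hi hiw a ha h0
    obtain ⟨n, hn⟩ := hk0 i h1 hi a ha h0
    suffices z ^ n ∈ S.F (i + 1) by simpa using mul_mem hn this
    rcases hz with rfl | ⟨-, hz⟩
    · simp
    rcases lt_or_gt_of_ne hiw with h | h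
    · exact pow_mem (S.anti h hzw) n
    · have h2 : z ^ n ∈ S.F (w + 1) := by
        have := mul_mem (inv_mem (S.anti (by omega : w + 1 ≤ i + 1) hn)) (S.anti h ha)
        simpa using this
      obtain ⟨k, rfl⟩ : p ∣ n := by_contra fun h' =>
        hz (mem_of_coprime (S.anti (by omega) hzp) h2 h')
      rw [pow_mul]
      exact pow_mem (S.anti (by omega) hzp) k
  have hpe : ∀ i, 1 ≤ i → i ≤ R → ∀ a ∈ S.F i, P.ε i (a ^ p) = 0 := fun i h1 hi a ha => by
    rw [(levF P h1 hi).pow ha, nsmul_eq_mul, ZMod.natCast_self, zero_mul]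
  have helem : ∀ n, μ < n → ∀ a ∈ S.F n, a ^ p ∈ S.F (n + 1) := by
    intro n
    induction n using Nat.strong_induction_on with
    | _ n ih =>
      intro hn a ha
      obtain ⟨φ, hφ, hφ0⟩ := exists_lev S n
      have hψ := hφ.map (nsmulAddMonoidHom p)
      refine hφ0 _ (pow_mem ha p) ?_
      rw [hφ.pow ha]
      refine (hull_gen (by omega) n hn hψ.kerSub
        (fun a ha => ⟨S.anti (Nat.le_succ n) ha, hψ.zero a ha⟩) ?_ ha).2
      intro k l hk1 hkμ hkl
      rw [Subgroup.commutator_le]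
      intro b hb u hu
      refine ⟨NSer.comm_mem' hb hu (by omega), ?_⟩
      show p • φ ⁅b, u⁆ = 0
      by_cases hl : μ < l
      · rw [← (hφ.commL (j := l) (by omega) hu).pow hb]
        exact (hφ.commL (j := l) (by omega) hu).zero _ (ih l (by omega) hl b hb)
      rw [← (hφ.commR hkl hb).pow hu]
      have h0 := hpe k hk1 (by omega) u hu
      by_cases hkw : k = w
      · refine hφ.zero _ (hk n (by omega) (by omega) (by omega) _
          (NSer.comm_mem' hb (pow_mem hu p) (by omega)) ?_)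
        rw [show n = l + k by omega, P.br l k (by omega) hk1 (by omega) _ (hull_le_self _ hb) _
          (hull_le_self _ (pow_mem hu p)), h0, mul_zero]
      · exact (hφ.commR hkl hb).zero _ (hk k hk1 (by omega) hkw _ (pow_mem hu p) h0)
  have hf : ∀ i, ∃ f, (i ≤ R → f ∈ S.F i) ∧ (i ≤ R → inS μ i → P.ε i f = 1) := fun i => by
    by_cases h : i ≤ R ∧ inS μ i
    · obtain ⟨f, h1, h2⟩ := exists_f P hμ hpR i h.1 h.2
      exact ⟨f, fun _ => h1, fun _ _ => h2⟩
    · exact ⟨1, fun _ => one_mem _, fun h1 h2 => absurd ⟨h1, h2⟩ h⟩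
  choose f hf1 hf2 using hf
  let X : Ctx p G :=
    { μ := μ
      hμ := hμ
      S := S
      gap := fun i h1 h2 => by
        have := gap_le hμ h1 h2
        rw [hull_eq (by omega), hull_eq this, P.gap i h1 h2]
      gen := hull_gen (by omega)
      term := hull_term (by omega) hG.isNilpotent
      elem := helem }
  refine ⟨X,
    { ε := P.ε
      e := f
      z := z
      w := w
      lev := fun i h1 h2 => levF P h1 h2
      e_mem := hf1
      e_one := hf2
      br := fun i j hi hj h a ha b hb =>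
        P.br i j hi hj h a (hull_le_self _ ha) b (hull_le_self _ hb)
      ker := hk
      z_mem := hzw
      z_eps := (P.lev w (by omega) hwR).zero z (P.H.anti (by omega) hzN)
      z_pow := S.anti (by omega) hzp
      kerw := hk0 w (by omega) hwR
      w_ge := hw2
      w_le := hwR }, hwR.trans hpR, fun h => ?_⟩
  rcases hz with rfl | ⟨h', -⟩
  exacts [one_mem _, absurd h' h]

end Base

/-- the start of the propagation, for lengths at least `20` -/
theorem baseStmt' (hC : ClassStmt) (R : ℕ) (hR : 20 ≤ R) :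
    ∃ m p₀ : ℕ, ∀ (p : ℕ) [Fact p.Prime], p₀ ≤ p →
      ∀ (G : Type) [Group G] [Finite G], IsPGroup p G → p ^ m ≤ Nat.card G → Bud p G →
        ∃ (X : Ctx p G) (T : St X R), T.Good := by
  obtain ⟨m, p₀, h⟩ := Base.exists_gfil hC R
  refine ⟨m, p₀ + R, fun p _ hp G _ _ hG hc hB => ?_⟩
  obtain ⟨μ, hμ, ⟨P⟩⟩ := h p (by omega) G hG hc hB
  exact Base.base_of_gfil P hG hB hμ hR (by omega)

end Pool.Agent.P78
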