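import Pool.Agent.Lib.MP_78c6b1_al.Neg.Iface3
import Pool.Agent.Lib.MP_78c6b1_al.Neg.LazEx

/-! `p`-th powers of elements of depth one are deep for at most one slope. -/

set_option autoImplicit false

namespace Pool.Agent.P78

open scoped commutatorElement

namespace Pow

/-- the layers `1, …, R` have order `p` and Witt brackets -/
structure Wt (p : ℕ) {G : Type} [Group G] (S : NSer G) (R : ℕ) where
  ε : ℕ → G → ZMod p
  e : ℕ → G
  lev : ∀ i, 1 ≤ i → i ≤ R → IsLev S i (ε i)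
  e_mem : ∀ i, i ≤ R → e i ∈ S.F i
  e_one : ∀ i, 1 ≤ i → i ≤ R → ε i (e i) = 1
  br : ∀ i j, 1 ≤ i → 1 ≤ j → i + j ≤ R → ∀ a ∈ S.F i, ∀ b ∈ S.F j,
    ε (i + j) ⁅a, b⁆ = ((j : ZMod p) - i) * ε i a * ε j b
  ker : ∀ i, 1 ≤ i → i ≤ R → ∀ a ∈ S.F i, ε i a = 0 → a ∈ S.F (i + 1)

variable {p : ℕ} {G : Type} [Group G]

/-! ### The quotient -/

/-- image of an N-series in the quotient by one of its terms -/
def quo (S : NSer G) (n : ℕ) : NSer (G ⧸ S.F n) where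
  F i := (S.F i).map (QuotientGroup.mk' (S.F n))
  normal i := (S.normal i).map _ (QuotientGroup.mk'_surjective _)
  anti _ _ h := Subgroup.map_mono (S.anti h)
  comm i j := by
    rw [← Subgroup.map_commutator]
    exact Subgroup.map_mono (S.comm i j)
  one := by
    rw [S.one]
    exact Subgroup.map_top_of_surjective _ (QuotientGroup.mk'_surjective _)

lemma quo_mem {S : NSer G} {n i : ℕ} (h : i ≤ n) (a : G) :
    (a : G ⧸ S.F n) ∈ (quo S n).F i ↔ a ∈ S.F i := by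
  constructor
  · rintro ⟨b, hb, hab⟩
    have h1 : b⁻¹ * a ∈ S.F n := QuotientGroup.eq.1 hab
    have h2 := mul_mem hb (S.anti h h1)
    simpa using h2
  · intro ha
    exact ⟨a, ha, rfl⟩

lemma quo_top (S : NSer G) (n : ℕ) : (quo S n).F n = ⊥ := by
  rw [eq_bot_iff]
  rintro x ⟨b, hb, rfl⟩
  exact (QuotientGroup.eq_one_iff b).2 hb

lemma eps_out {S : NSer G} {R : ℕ} (W : Wt p S R) {i : ℕ} (h1 : 1 ≤ i) (hi : i ≤ R) {a : G}
    (ha : a ∈ S.F i) : W.ε i (a : G ⧸ S.F (R + 1)).out = W.ε i a := by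
  obtain ⟨n, hn⟩ := QuotientGroup.mk_out_eq_mul (S.F (R + 1)) a
  rw [hn]
  exact (W.lev i h1 hi).mul_deep ha (S.anti (by omega) n.2)

/-- the Witt data of the quotient -/
noncomputable def Wt.quo {S : NSer G} {R : ℕ} (W : Wt p S R) : Wt p (quo S (R + 1)) R where
  ε i x := W.ε i x.out
  e i := (W.e i : G ⧸ S.F (R + 1))
  lev i h1 hi := by
    refine ⟨?_, ?_⟩
    · rintro _ ⟨a, ha, rfl⟩ _ ⟨b, hb, rfl⟩
      simp only [QuotientGroup.mk'_apply, ← QuotientGroup.mk_mul]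
      rw [eps_out W h1 hi ha, eps_out W h1 hi hb, eps_out W h1 hi (mul_mem ha hb),
        (W.lev i h1 hi).add a ha b hb]
    · rintro _ ⟨a, ha, rfl⟩
      simp only [QuotientGroup.mk'_apply]
      rw [eps_out W h1 hi (S.anti (Nat.le_succ i) ha), (W.lev i h1 hi).zero a ha]
  e_mem i hi := ⟨_, W.e_mem i hi, rfl⟩
  e_one i h1 hi := by rw [eps_out W h1 hi (W.e_mem i hi), W.e_one i h1 hi]
  br i j hi hj hij := by
    rintro _ ⟨a, ha, rfl⟩ _ ⟨b, hb, rfl⟩
    rw [← map_commutatorElement]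
    simp only [QuotientGroup.mk'_apply]
    rw [eps_out W hi (by omega) ha, eps_out W hj (by omega) hb,
      eps_out W (by omega) hij (NSer.comm_mem ha hb), W.br i j hi hj hij a ha b hb]
  ker i h1 hi := by
    rintro _ ⟨a, ha, rfl⟩ h
    simp only [QuotientGroup.mk'_apply] at h
    rw [eps_out W h1 hi ha] at h
    exact ⟨a, W.ker i h1 hi a ha h, rfl⟩

/-! ### The Lie ring of `F 2` -/

lemma lcs_le (S : NSer G) (k : ℕ) :
    (⊤ : Subgroup (S.F 2)).lowerCentralSeries k ≤ (S.F (2 * k + 2)).subgroupOf (S.F 2) := by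
  induction k with
  | zero => intro x _; exact x.2
  | succ k ih =>
    rw [Subgroup.lowerCentralSeries_succ, Subgroup.commutator_le]
    intro a ha b _
    have h1 : (a : G) ∈ S.F (2 * k + 2) := ih ha
    have h2 := NSer.comm_mem h1 b.2
    rw [Subgroup.mem_subgroupOf]
    exact S.anti (by omega) h2

section Lie

variable {S : NSer G} {L : Type} [LieRing L] (Z : Laz (S.F 2) L)

/-- the element of `G` with logarithm `v` -/
def ex (v : L) : G := (Z.ℓ.symm v : S.F 2)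

lemma ex_mem (v : L) : ex Z v ∈ S.F 2 := (Z.ℓ.symm v).2

lemma ex_ℓ (g : S.F 2) : ex Z (Z.ℓ g) = g := by simp [ex]

/-- the filtration of the Lie ring -/
def Ph (i : ℕ) : AddSubgroup L := Z.log ((S.F i).subgroupOf (S.F 2))

lemma mem_Ph {i : ℕ} {v : L} : v ∈ Ph Z i ↔ ex Z v ∈ S.F i := Iff.rfl

lemma Ph_two (v : L) : v ∈ Ph Z 2 := ex_mem Z v

lemma Ph_mono {i j : ℕ} {v : L} (hv : v ∈ Ph Z i) (h : j ≤ i) : v ∈ Ph Z j :=
  S.anti h hv

lemma Ph_lie {i j : ℕ} {a b : L} (ha : a ∈ Ph Z i) (hb : b ∈ Ph Z j) :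
    ⁅a, b⁆ ∈ Ph Z (i + j) := by
  refine Z.log_comm ?_ ha hb
  rw [Subgroup.commutator_le]
  intro x hx y hy
  exact NSer.comm_mem (a := (x : G)) (b := (y : G)) hx hy

lemma Ph_lie' {i : ℕ} (b : L) : ∀ a ∈ Ph Z (i + 1), ⁅a, b⁆ ∈ Ph Z (i + 1) :=
  fun _ ha => Ph_mono Z (Ph_lie Z ha (Ph_two Z b)) (by omega)

variable {R : ℕ} (W : Wt p S R)

/-- the layer functions of the Lie ring -/
def eta (i : ℕ) (v : L) : ZMod p := W.ε i (ex Z v)

lemma eta_congr {i : ℕ} (h1 : 1 ≤ i) (hi : i ≤ R) {a b : L} (ha : a ∈ Ph Z i)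
    (hab : b - a ∈ Ph Z (i + 1)) : eta Z W i b = eta Z W i a := by
  obtain ⟨g, rfl⟩ := Z.ℓ.surjective b
  obtain ⟨h, rfl⟩ := Z.ℓ.surjective a
  have h2 := (Z.div_mem_iff (Ph Z (i + 1)) (Ph_lie' Z _) (Ph_lie' Z _)).2 hab
  rw [mem_Ph, ex_ℓ] at h2 ha
  simp only [eta, ex_ℓ]
  exact (W.lev i h1 hi).congr' ha h2

lemma eta_zero {i : ℕ} (h1 : 1 ≤ i) (hi : i ≤ R) {a : L} (ha : a ∈ Ph Z (i + 1)) :
    eta Z W i a = 0 := (W.lev i h1 hi).zero _ ha

lemma eta_ker {i : ℕ} (h1 : 1 ≤ i) (hi : i ≤ R) {a : L} (ha : a ∈ Ph Z i)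
    (h : eta Z W i a = 0) : a ∈ Ph Z (i + 1) := W.ker i h1 hi _ ha h

lemma eta_add {i : ℕ} (h1 : 1 ≤ i) (hi : i ≤ R) {a b : L} (ha : a ∈ Ph Z i) (hb : b ∈ Ph Z i) :
    eta Z W i (a + b) = eta Z W i a + eta Z W i b := by
  obtain ⟨g, rfl⟩ := Z.ℓ.surjective a
  obtain ⟨h, rfl⟩ := Z.ℓ.surjective b
  have h2 : Z.ℓ (g * h) - (Z.ℓ g + Z.ℓ h) ∈ Ph Z (i + 1) := by
    rw [Z.mul, add_sub_cancel_left]
    exact evC_mem _ _ (Ph_mono Z (Ph_lie Z ha hb) (by omega)) (Ph_lie' Z _) (Ph_lie' Z _)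
  rw [← eta_congr Z W h1 hi (add_mem ha hb) h2]
  rw [mem_Ph, ex_ℓ] at ha hb
  simp only [eta, ex_ℓ]
  exact (W.lev i h1 hi).add _ ha _ hb

lemma eta_nsmul {i : ℕ} (h1 : 1 ≤ i) (hi : i ≤ R) {a : L} (ha : a ∈ Ph Z i) (n : ℕ) :
    eta Z W i (n • a) = n • eta Z W i a := by
  obtain ⟨g, rfl⟩ := Z.ℓ.surjective a
  rw [← Z.pow]
  rw [mem_Ph, ex_ℓ] at ha
  simp only [eta, ex_ℓ]
  exact (W.lev i h1 hi).pow ha n

lemma eta_lie {i j : ℕ} (hi : 1 ≤ i) (hj : 1 ≤ j) (hij : i + j ≤ R) {a b : L} (ha : a ∈ Ph Z i)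
    (hb : b ∈ Ph Z j) :
    eta Z W (i + j) ⁅a, b⁆ = ((j : ZMod p) - i) * eta Z W i a * eta Z W j b := by
  obtain ⟨g, rfl⟩ := Z.ℓ.surjective a
  obtain ⟨h, rfl⟩ := Z.ℓ.surjective b
  have h0 := Ph_lie Z ha hb
  have h3 : ∀ c : L, ∀ v ∈ Ph Z (i + j), ⁅v, c⁆ ∈ Ph Z (i + j + 1) := fun c v hv =>
    Ph_mono Z (Ph_lie Z hv (Ph_two Z c)) (by omega)
  have h2 : Z.ℓ ⁅g, h⁆ - ⁅Z.ℓ g, Z.ℓ h⁆ ∈ Ph Z (i + j + 1) := by
    rw [Z.comm, add_sub_cancel_left]
    exact evC_mem₁ Z.βc_nil _ _ h0 (fun v hv => Ph_mono Z hv (Nat.le_succ _)) (h3 _) (h3 _)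
  rw [← eta_congr Z W (by omega) hij h0 h2]
  rw [mem_Ph, ex_ℓ] at ha hb
  simp only [eta, ex_ℓ]
  exact W.br i j hi hj hij _ ha _ hb

/-- conjugation on the Lie ring -/
def al : G →* AddMonoid.End L where
  toFun g := Z.hom (MulAut.conjNormal (H := S.F 2) g).toMonoidHom
  map_one' := by
    ext v
    obtain ⟨g, rfl⟩ := Z.ℓ.surjective v
    show Z.hom _ (Z.ℓ g) = Z.ℓ g
    rw [Z.hom_ℓ]
    simp
  map_mul' a b := by
    ext v
    obtain ⟨g, rfl⟩ := Z.ℓ.surjective v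
    show Z.hom _ (Z.ℓ g) = Z.hom _ (Z.hom _ (Z.ℓ g))
    rw [Z.hom_ℓ, Z.hom_ℓ, Z.hom_ℓ]
    simp

lemma al_ℓ (g : G) (b : S.F 2) : al Z g (Z.ℓ b) = Z.ℓ (MulAut.conjNormal g b) := Z.hom_ℓ _ b

lemma al_sub {k j : ℕ} (hk : 1 ≤ k) (hj : 1 ≤ j) {g : G} (hg : g ∈ S.F k) {v : L}
    (hv : v ∈ Ph Z j) : al Z g v - v ∈ Ph Z (k + j) ∧
      (k + j ≤ R → eta Z W (k + j) (al Z g v - v) =
        ((j : ZMod p) - k) * W.ε k g * eta Z W j v) := by
  obtain ⟨b, rfl⟩ := Z.ℓ.surjective v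
  have hb : (b : G) ∈ S.F j := by rwa [mem_Ph, ex_ℓ] at hv
  have hu : ⁅g, (b : G)⁆ ∈ S.F (k + j) := NSer.comm_mem hg hb
  let u : S.F 2 := ⟨⁅g, (b : G)⁆, S.anti (by omega) hu⟩
  have h1 : MulAut.conjNormal g b = u * b := by
    apply Subtype.ext
    simp [u, commutatorElement_def]
  have hu' : Z.ℓ u ∈ Ph Z (k + j) := by rw [mem_Ph, ex_ℓ]; exact hu
  have h2 : al Z g (Z.ℓ b) - Z.ℓ b - Z.ℓ u ∈ Ph Z (k + j + 1) := by
    rw [al_ℓ, h1, Z.mul, show ∀ x y z : L, x + y + z - y - x = z by intros; abel]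
    exact evC_mem _ _ (Ph_mono Z (Ph_lie Z hu' (Ph_two Z _)) (by omega)) (Ph_lie' Z _)
      (Ph_lie' Z _)
  refine ⟨?_, fun hR => ?_⟩
  · simpa using add_mem (Ph_mono Z h2 (Nat.le_succ _)) hu'
  · rw [eta_congr Z W (by omega) hR hu' h2]
    simp only [eta, ex_ℓ]
    exact W.br k j hk hj hR g hg _ hb

lemma exists_E {i : ℕ} (h2 : 2 ≤ i) (hi : i ≤ R) : ∃ v ∈ Ph Z i, eta Z W i v = 1 := by
  refine ⟨Z.ℓ ⟨W.e i, S.anti h2 (W.e_mem i hi)⟩, ?_, ?_⟩
  · rw [mem_Ph, ex_ℓ]; exact W.e_mem i hi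
  · simp only [eta, ex_ℓ]; exact W.e_one i (by omega) hi

variable [hp : Fact p.Prime]

lemma shift₀ (hR : p + 7 ≤ R) {v : L} (hv : v ∈ Ph Z 4) (h0 : eta Z W 4 v ≠ 0) :
    p • v ∈ Ph Z (p + 4) := by
  have key : ∀ l, l + 1 ≤ p → p • v ∈ Ph Z (l + 5) := by
    intro l
    induction l with
    | zero =>
      intro _
      refine eta_ker Z W (by omega) (by omega) (nsmul_mem hv p) ?_
      rw [eta_nsmul Z W (by omega) (by omega) hv]
      simp
    | succ l ih =>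
      intro hl
      have h1 := ih (by omega)
      refine eta_ker Z W (i := l + 5) (by omega) (by omega) h1 ?_
      have h2 := eta_lie Z W (i := 4) (j := l + 5) (by omega) (by omega) (by omega) hv h1
      rw [lie_nsmul, lie_self, smul_zero,
        eta_zero Z W (by omega) (by omega) (zero_mem _)] at h2
      have h3 : ((l + 5 : ℕ) : ZMod p) - (4 : ℕ) ≠ 0 := by
        have h4 : ((l + 5 : ℕ) : ZMod p) - (4 : ℕ) = ((l + 1 : ℕ) : ZMod p) := by
          push_cast; ring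
        rw [h4, Ne, ZMod.natCast_eq_zero_iff]
        exact Nat.not_dvd_of_pos_of_lt (by omega) (by omega)
      exact (mul_eq_zero.1 h2.symm).resolve_left (mul_ne_zero h3 h0)
  have hp1 := hp.out.one_lt
  have := key (p - 1) (by omega)
  rwa [show p - 1 + 5 = p + 4 by omega] at this

include W in
lemma shift (hR : p + 7 ≤ R) {v : L} (hv : v ∈ Ph Z 4) : p • v ∈ Ph Z (p + 4) := by
  by_cases h0 : eta Z W 4 v = 0
  · obtain ⟨E, hE, hE1⟩ := exists_E Z W (i := 4) (by omega) (by omega)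
    have h1 : eta Z W 4 (v + E) ≠ 0 := by
      rw [eta_add Z W (by omega) (by omega) hv hE, h0, hE1, zero_add]
      exact one_ne_zero
    have h2 := sub_mem (shift₀ Z W hR (add_mem hv hE) h1)
      (shift₀ Z W hR hE (by rw [hE1]; exact one_ne_zero))
    simpa using h2
  · exact shift₀ Z W hR hv h0

omit hp in
lemma binom (δ : AddMonoid.End L) (n : ℕ) (v : L) :
    ((δ + 1) ^ n) v = ∑ k ∈ Finset.range (n + 1), n.choose k • (δ ^ k) v := by
  rw [(Commute.one_right δ).add_pow]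
  have h : ∀ (s : Finset ℕ) (f : ℕ → AddMonoid.End L), (∑ k ∈ s, f k) v = ∑ k ∈ s, f k v :=
    fun s f => AddMonoidHom.finsetSum_apply f s v
  rw [h]
  refine Finset.sum_congr rfl fun k _ => ?_
  rw [one_pow, mul_one]
  show (δ ^ k) ((n.choose k : AddMonoid.End L) v) = _
  rw [AddMonoid.End.natCast_apply, map_nsmul]

include Z W in
lemma core (hp2 : 2 ≤ p) (hR : p + 7 ≤ R) {y h : G} (hy : y ∉ S.F 2) (hh : h ∈ S.F 2)
    (h1 : y ^ p ∈ S.F (p + 2)) (h2 : (h * y) ^ p ∈ S.F (p + 2)) : h ∈ S.F 3 := by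
  obtain ⟨E, hE, hE1⟩ := exists_E Z W (i := 2) le_rfl (by omega)
  set a := W.ε 1 y with ha
  set t := W.ε 2 h with ht
  have ha0 : a ≠ 0 := fun h0 => hy (W.ker 1 le_rfl (by omega) y (S.mem_one y) h0)
  have ha' : W.ε 1 (h * y) = a := (W.lev 1 le_rfl (by omega)).deep_mul (S.mem_one y) hh
  set δ : AddMonoid.End L := al Z y - 1 with hδ
  set δ' : AddMonoid.End L := al Z (h * y) - 1 with hδ'
  have dδ : ∀ v, δ v = al Z y v - v := fun v => rfl
  have dδ' : ∀ v, δ' v = al Z (h * y) v - v := fun v => rfl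
  have hu : ∀ k, k ≤ p → (δ ^ k) E ∈ Ph Z (k + 2) ∧
      eta Z W (k + 2) ((δ ^ k) E) = a ^ k * (k.factorial : ZMod p) := by
    intro k
    induction k with
    | zero => intro _; simpa using ⟨hE, hE1⟩
    | succ k ih =>
      intro hk
      obtain ⟨i1, i2⟩ := ih (by omega)
      obtain ⟨j1, j2⟩ := al_sub Z W (k := 1) (j := k + 2) le_rfl (by omega) (S.mem_one y) i1
      have e : (δ ^ (k + 1)) E = al Z y ((δ ^ k) E) - (δ ^ k) E := by rw [pow_succ']; rfl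
      rw [e, show k + 1 + 2 = 1 + (k + 2) by omega]
      refine ⟨j1, ?_⟩
      rw [j2 (by omega), i2, Nat.factorial_succ]
      push_cast
      ring
  let d : ℕ → L := fun k => (δ' ^ k) E - (δ ^ k) E
  have hd : ∀ k, k + 1 ≤ p → d k ∈ Ph Z (k + 3) → d (k + 1) ∈ Ph Z (k + 4) ∧
      eta Z W (k + 4) (d (k + 1)) = ((k : ZMod p) + 2) * a * eta Z W (k + 3) (d k) +
        (k : ZMod p) * t * (a ^ k * (k.factorial : ZMod p)) := by
    intro k hk hdk
    obtain ⟨i1, i2⟩ := hu k (by omega)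
    obtain ⟨j1, -⟩ := al_sub Z W (k := 1) (j := k + 2) le_rfl (by omega) (S.mem_one y) i1
    have j3 : al Z y ((δ ^ k) E) - (δ ^ k) E ∈ Ph Z (k + 2 + 1) := Ph_mono Z j1 (by omega)
    have j4 : al Z y ((δ ^ k) E) ∈ Ph Z (k + 2) := by
      simpa using add_mem (Ph_mono Z j3 (Nat.le_succ _)) i1
    have j5 : eta Z W (k + 2) (al Z y ((δ ^ k) E)) = a ^ k * (k.factorial : ZMod p) := by
      rw [eta_congr Z W (by omega) (by omega) i1 j3, i2]
    obtain ⟨k1, k2⟩ := al_sub Z W (k := 2) (j := k + 2) (by omega) (by omega) hh j4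
    obtain ⟨l1, l2⟩ := al_sub Z W (k := 1) (j := k + 3) le_rfl (by omega) (S.mem_one (h * y)) hdk
    have e : d (k + 1) = (al Z (h * y) (d k) - d k) +
        (al Z h (al Z y ((δ ^ k) E)) - al Z y ((δ ^ k) E)) := by
      have e1 : (δ ^ (k + 1)) E = al Z y ((δ ^ k) E) - (δ ^ k) E := by rw [pow_succ']; rfl
      have e2 : (δ' ^ (k + 1)) E = al Z (h * y) ((δ' ^ k) E) - (δ' ^ k) E := by
        rw [pow_succ']; rfl
      have e3 : al Z h (al Z y ((δ ^ k) E)) = al Z (h * y) ((δ ^ k) E) := by rw [map_mul]; rfl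
      simp only [d, e1, e2, e3, map_sub]
      abel
    rw [show 2 + (k + 2) = k + 4 by omega] at k1 k2
    rw [show 1 + (k + 3) = k + 4 by omega] at l1 l2
    rw [e]
    refine ⟨add_mem l1 k1, ?_⟩
    rw [eta_add Z W (by omega) (by omega) l1 k1, l2 (by omega), k2 (by omega), j5, ha']
    push_cast
    ring
  have hdm : ∀ k, k ≤ p → d k ∈ Ph Z (k + 3) := by
    intro k
    induction k with
    | zero => intro _; simp [d]
    | succ k ih => intro hk; exact (hd k hk (ih (by omega))).1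
  have hsum : ∑ k ∈ Finset.range (p + 1), p.choose k • d k ∈ Ph Z (p + 4) := by
    have e1 : ∑ k ∈ Finset.range (p + 1), p.choose k • d k =
        (al Z ((h * y) ^ p) E - E) - (al Z (y ^ p) E - E) := by
      have e2 := binom δ p E
      have e3 := binom δ' p E
      rw [hδ, sub_add_cancel, ← map_pow, ← hδ] at e2
      rw [hδ', sub_add_cancel, ← map_pow, ← hδ'] at e3
      simp only [d, smul_sub, Finset.sum_sub_distrib, ← e2, ← e3]
      abel
    rw [e1]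
    exact sub_mem (al_sub Z W (k := p + 2) (j := 2) (by omega) (by omega) h2 hE).1
      (al_sub Z W (k := p + 2) (j := 2) (by omega) (by omega) h1 hE).1
  have hlow : ∑ k ∈ Finset.range p, p.choose k • d k ∈ Ph Z (p + 4) := by
    refine sum_mem fun k hk => ?_
    rcases Nat.eq_zero_or_pos k with rfl | hk0
    · simp [d]
    · have hkp := Finset.mem_range.1 hk
      obtain ⟨m, hm⟩ := hp.out.dvd_choose_self hk0.ne' hkp
      rw [hm, mul_comm, mul_smul]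
      exact nsmul_mem (shift Z W hR (Ph_mono Z (hdm k hkp.le) (by omega))) m
  have hdp : d p ∈ Ph Z (p + 3 + 1) := by
    rw [Finset.sum_range_succ, Nat.choose_self, one_smul] at hsum
    simpa using sub_mem hsum hlow
  have hz := eta_zero Z W (by omega) (by omega) hdp
  obtain ⟨n, rfl⟩ : ∃ n, p = n + 2 := ⟨p - 2, by omega⟩
  have r1 := (hd n (by omega) (hdm n (by omega))).2
  have r2 := (hd (n + 1) (by omega) (hdm (n + 1) (by omega))).2
  have hn : (n : ZMod (n + 2)) = -2 := by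
    have : ((n + 2 : ℕ) : ZMod (n + 2)) = 0 := ZMod.natCast_self _
    push_cast at this
    linear_combination this
  have hw : (((n + 1).factorial : ℕ) : ZMod (n + 2)) = -1 := ZMod.wilsons_lemma (n + 2)
  have hw' : ((n.factorial : ℕ) : ZMod (n + 2)) = 1 := by
    rw [Nat.factorial_succ] at hw
    push_cast at hw
    rw [hn] at hw
    linear_combination -hw
  have hz' : eta Z W (n + 1 + 4) (d (n + 1 + 1)) = 0 := hz
  rw [hz', show n + 1 + 3 = n + 4 by omega, r1, hw, hw'] at r2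
  push_cast at r2
  rw [hn] at r2
  have ht0 : t * a ^ (n + 1) = 0 := by linear_combination r2
  exact W.ker 2 (by omega) (by omega) h hh
    ((mul_eq_zero.1 ht0).resolve_right (pow_ne_zero _ ha0))

end Lie

lemma core' [hp : Fact p.Prime] (hp8 : 8 ≤ p) [Finite G] (hG : IsPGroup p G) {S : NSer G}
    (W : Wt p S (p + 7)) (htop : S.F (p + 7 + 1) = ⊥) {y h : G} (hy : y ∉ S.F 2) (hh : h ∈ S.F 2)
    (h1 : y ^ p ∈ S.F (p + 2)) (h2 : (h * y) ^ p ∈ S.F (p + 2)) : h ∈ S.F 3 := by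
  have hc : (⊤ : Subgroup (S.F 2)).lowerCentralSeries (p - 1) = ⊥ := by
    rw [eq_bot_iff]
    intro x hx
    have h3 : (x : G) ∈ S.F (p + 7 + 1) := S.anti (by omega) (lcs_le S (p - 1) hx)
    rw [htop, Subgroup.mem_bot] at h3
    exact Subgroup.mem_bot.2 (Subtype.ext h3)
  obtain ⟨L, _, Z, -⟩ := lazard p (S.F 2) (hG.to_subgroup _) (p - 1) (by omega) (by omega) hc
  exact core Z W (by omega) le_rfl hy hh h1 h2

end Pow

theorem powStmt : PowStmt := by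
  intro p hp hp11 G _ _ hG X r T hμ hz hr y y' hy hh h1 h2
  let W : Pow.Wt p X.S (p + 7) :=
    { ε := T.ε
      e := T.e
      lev := fun i h1 hi => T.lev i h1 (by omega)
      e_mem := fun i hi => T.e_mem i (by omega)
      e_one := fun i h1 hi => T.e_one i (by omega) ⟨h1, by omega, by omega⟩
      br := fun i j hi hj hij => T.br i j hi hj (by omega)
      ker := fun i h1 hi a ha h0 => by
        by_cases hw : i = T.w
        · subst hw
          obtain ⟨n, hn⟩ := T.kerw a ha h0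
          simpa using mul_mem hn (pow_mem hz n)
        · exact T.ker i h1 (by omega) hw a ha h0 }
  have h3 := Pow.core' (by omega) (hG.to_quotient _) W.quo (Pow.quo_top X.S _)
    (y := (y : G ⧸ X.S.F (p + 7 + 1))) (h := ((y' * y⁻¹ : G) : G ⧸ X.S.F (p + 7 + 1)))
    (by rwa [Pow.quo_mem (by omega)]) (by rwa [Pow.quo_mem (by omega)])
    (by rwa [← QuotientGroup.mk_pow, Pow.quo_mem (by omega)])
    (by rwa [← QuotientGroup.mk_mul, inv_mul_cancel_right, ← QuotientGroup.mk_pow,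
      Pow.quo_mem (by omega)])
  rwa [Pow.quo_mem (by omega)] at h3

end Pool.Agent.P78
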